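import Pool.Agent.Helper93.HZ.Blow

/-!
# HZ: the conclusion 8.2 (LON)

If `v` is a hyperbolic vertex all of whose edges are free and lie in at most two triangles then the
link of `v` is a line on which the stabilizer of `v` acts by translations; so a set `S_ε(v)` is a
ray with just one exit.
-/

set_option autoImplicit false

open MulAction Pointwise

namespace Pool.Agent.Helper93.HZ

/-- there is a walk of length `n` -/
def lon_W {V : Type} (E : V → V → Prop) (x y : V) (n : ℕ) : Prop :=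
  ∃ f : ℕ → V, f 0 = x ∧ f n = y ∧ ∀ i < n, E (f i) (f (i + 1))

theorem lon_walk {V : Type} (E : V → V → Prop) {x y : V} (h : Relation.ReflTransGen E x y) :
    ∃ n, lon_W E x y n := by
  induction h with
  | refl => exact ⟨0, fun _ => x, rfl, rfl, fun i hi => absurd hi (Nat.not_lt_zero _)⟩
  | @tail b c _ hbc ih =>
    obtain ⟨n, f, h0, hn, hf⟩ := ih
    refine ⟨n + 1, fun i => if i ≤ n then f i else c, ?_, ?_, ?_⟩
    · show (if 0 ≤ n then f 0 else c) = x
      rw [if_pos (Nat.zero_le n), h0]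
    · show (if n + 1 ≤ n then f (n + 1) else c) = c
      rw [if_neg (by omega)]
    · intro i hi
      show E (if i ≤ n then f i else c) (if i + 1 ≤ n then f (i + 1) else c)
      by_cases h1 : i + 1 ≤ n
      · rw [if_pos (by omega : i ≤ n), if_pos h1]
        exact hf i (by omega)
      · have h2 : i = n := by omega
        subst h2
        rw [if_pos le_rfl, if_neg h1, hn]
        exact hbc

/-- a connected graph of degree at most two with a free action of an infinite cyclic group is a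
line -/
theorem lon_line0 {G V : Type} [Group G] [MulAction G V] (E : V → V → Prop) (z : G)
    (hsymm : ∀ p q, E p q → E q p)
    (hE : ∀ (k : ℤ) p q, E p q → E (z ^ k • p) (z ^ k • q))
    (hfree : ∀ (k : ℤ) p q, E p q → k ≠ 0 → z ^ k • p ≠ p)
    (hconn : ∀ p q p' q', E p q → E p' q' → Relation.ReflTransGen E p p')
    (hdeg : ∀ p q, E p q → {q | E p q}.Finite ∧ {q | E p q}.ncard ≤ 2)
    (p0 q0 : V) (h0 : E p0 q0) :
    ∃ (g : ℤ → V) (n m : ℤ), 0 < n ∧ m ≠ 0 ∧
      (∀ i k : ℤ, g (i + k * n) = z ^ (m * k) • g i) ∧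
      (∀ i, E (g i) (g (i + 1))) ∧
      (∀ i q, E (g i) q → q = g (i - 1) ∨ q = g (i + 1)) ∧
      ∀ p q, E p q → ∃ i, p = g i := by
  classical
  let Pn : ℕ → Prop := fun n => ∃ (p q : V) (m : ℤ), E p q ∧ m ≠ 0 ∧ lon_W E p (z ^ m • p) n
  have hex : ∃ n, Pn n := by
    obtain ⟨n, hn⟩ := lon_walk E
      (hconn p0 q0 (z ^ (1 : ℤ) • p0) (z ^ (1 : ℤ) • q0) h0 (hE 1 _ _ h0))
    exact ⟨n, p0, q0, 1, h0, one_ne_zero, hn⟩
  obtain ⟨n, hPn, hmin⟩ : ∃ n, Pn n ∧ ∀ l < n, ¬ Pn l :=
    ⟨Nat.find hex, Nat.find_spec hex, fun l hl => Nat.find_min hex hl⟩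
  obtain ⟨p, q, m, hpq, hm, f, hf0, hfn, hf⟩ := hPn
  have hn0 : 0 < n := by
    rcases Nat.eq_zero_or_pos n with h | h
    · subst h
      exact absurd (hfn.symm.trans hf0) (hfree m p q hpq hm)
    · exact h
  have hn1 : (0 : ℤ) < n := by exact_mod_cast hn0
  have hn2 : (n : ℤ) ≠ 0 := ne_of_gt hn1
  let g : ℤ → V := fun i => z ^ (m * (i / n)) • f (i % n).toNat
  have gper : ∀ (i k : ℤ), g (i + k * n) = z ^ (m * k) • g i := by
    intro i k
    show z ^ (m * ((i + k * n) / n)) • f ((i + k * n) % n).toNat =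
      z ^ (m * k) • z ^ (m * (i / n)) • f (i % n).toNat
    rw [Int.add_mul_ediv_right _ _ hn2, Int.add_mul_emod_self_right, ← mul_smul, ← zpow_add]
    have h1 : m * (i / n + k) = m * k + m * (i / n) := by ring
    rw [h1]
  have gf1 : ∀ r : ℕ, r < n → g r = f r := by
    intro r hr
    show z ^ (m * ((r : ℤ) / n)) • f ((r : ℤ) % n).toNat = f r
    rw [Int.ediv_eq_zero_of_lt (Int.natCast_nonneg r) (by exact_mod_cast hr),
      Int.emod_eq_of_lt (Int.natCast_nonneg r) (by exact_mod_cast hr)]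
    simp
  have gfn : g n = f n := by
    have h1 := gper 0 1
    have h2 := gf1 0 hn0
    rw [zero_add, one_mul, mul_one] at h1
    rw [Nat.cast_zero] at h2
    rw [h1, h2, hf0, hfn]
  have gf : ∀ r : ℕ, r ≤ n → g r = f r := by
    intro r hr
    rcases lt_or_eq_of_le hr with h | h
    · exact gf1 r h
    · rw [h]; exact gfn
  have gadj0 : ∀ r : ℕ, r < n → E (g r) (g (r + 1)) := by
    intro r hr
    have h1 := gf r hr.le
    have h2 := gf (r + 1) hr
    rw [Nat.cast_succ] at h2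
    rw [h1, h2]
    exact hf r hr
  have gadj : ∀ i, E (g i) (g (i + 1)) := by
    intro i
    have hr0 := Int.emod_nonneg i hn2
    have hr1 := Int.emod_lt_of_pos i hn1
    have hdiv := Int.emod_add_mul_ediv i n
    have h1 : i = ((i % n).toNat : ℤ) + (i / n) * n := by
      rw [Int.toNat_of_nonneg hr0]
      linarith
    have h2 : i + 1 = (((i % n).toNat : ℤ) + 1) + (i / n) * n := by
      rw [Int.toNat_of_nonneg hr0]
      linarith
    have h3 := gadj0 (i % n).toNat (by omega)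
    have h4 := hE (m * (i / n)) _ _ h3
    rw [← gper, ← gper, ← h1, ← h2] at h4
    exact h4
  have walk : ∀ (a : ℤ) (l : ℕ) (m' : ℤ), m' ≠ 0 → g (a + l) = z ^ m' • g a → n ≤ l := by
    intro a l m' hm' hg
    by_contra hlt
    refine hmin l (not_le.1 hlt) ⟨g a, g (a + 1), m', gadj a, hm', fun t => g (a + t), ?_, hg, ?_⟩
    · show g (a + (0 : ℕ)) = g a
      rw [Nat.cast_zero, add_zero]
    · intro i _
      show E (g (a + i)) (g (a + (i + 1 : ℕ)))
      rw [Nat.cast_succ, ← add_assoc]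
      exact gadj _
  have key : ∀ i j : ℤ, i < j → g i ≠ g j := by
    intro i j hlt heq
    have hr0 := Int.emod_nonneg (j - i) hn2
    have hr1 := Int.emod_lt_of_pos (j - i) hn1
    have hdiv := Int.emod_add_mul_ediv (j - i) n
    by_cases hk : (j - i) / n = 0
    · rw [hk, mul_zero, add_zero] at hdiv
      have h1 := gper i 1
      have h2 : (((n : ℤ) - (j - i)).toNat : ℤ) = n - (j - i) := Int.toNat_of_nonneg (by omega)
      have h3 := walk j ((n : ℤ) - (j - i)).toNat m hm (by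
        rw [h2, show j + ((n : ℤ) - (j - i)) = i + 1 * n by ring, h1, mul_one, heq])
      omega
    · have h1 := gper (i + (j - i) % n) ((j - i) / n)
      have h2 : i + (j - i) % n + (j - i) / n * n = j := by linarith
      rw [h2] at h1
      have h3 : (((j - i) % n).toNat : ℤ) = (j - i) % n := Int.toNat_of_nonneg hr0
      have h4 := walk i ((j - i) % n).toNat (-(m * ((j - i) / n)))
        (neg_ne_zero.2 (mul_ne_zero hm hk)) (by
          rw [h3, heq, h1, ← mul_smul, ← zpow_add, neg_add_cancel, zpow_zero, one_smul])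
      omega
  have inj : ∀ i j : ℤ, i ≠ j → g i ≠ g j := by
    intro i j hne
    rcases lt_or_gt_of_ne hne with h | h
    · exact key i j h
    · exact (key j i h).symm
  have nbr : ∀ i q, E (g i) q → q = g (i - 1) ∨ q = g (i + 1) := by
    intro i q hq
    by_contra hcon
    rw [not_or] at hcon
    obtain ⟨hd1, hd2⟩ := hdeg (g i) q hq
    have h1 : E (g i) (g (i - 1)) := by
      have h2 := gadj (i - 1)
      rw [sub_add_cancel] at h2
      exact hsymm _ _ h2
    have h3 : ({g (i - 1), g (i + 1), q} : Set V) ⊆ {q | E (g i) q} := by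
      rintro x (rfl | rfl | rfl)
      · exact h1
      · exact gadj i
      · exact hq
    have h4 := Set.ncard_le_ncard h3 hd1
    have h5 : ({g (i - 1), g (i + 1), q} : Set V).ncard = 3 :=
      Set.ncard_eq_three.2 ⟨g (i - 1), g (i + 1), q, inj _ _ (by omega), Ne.symm hcon.1,
        Ne.symm hcon.2, rfl⟩
    omega
  refine ⟨g, n, m, hn1, hm, gper, gadj, nbr, ?_⟩
  intro p' q' h
  have h1 := hconn (g 0) (g (0 + 1)) p' q' (gadj 0) h
  clear h
  induction h1 with
  | refl => exact ⟨0, rfl⟩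
  | @tail b c _ hbc ih =>
    obtain ⟨i, rfl⟩ := ih
    rcases nbr i c hbc with h | h
    · exact ⟨_, h⟩
    · exact ⟨_, h⟩

theorem lon_line {G V : Type} [Group G] [MulAction G V] (E : V → V → Prop) (z : G)
    (hsymm : ∀ p q, E p q → E q p)
    (hE : ∀ (k : ℤ) p q, E p q → E (z ^ k • p) (z ^ k • q))
    (hfree : ∀ (k : ℤ) p q, E p q → k ≠ 0 → z ^ k • p ≠ p)
    (hconn : ∀ p q p' q', E p q → E p' q' → Relation.ReflTransGen E p p')
    (hdeg : ∀ p q, E p q → {q | E p q}.Finite ∧ {q | E p q}.ncard ≤ 2)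
    (p0 q0 : V) (h0 : E p0 q0) :
    ∃ (g : ℤ → V) (n m : ℤ), 0 < n ∧ 0 < m ∧
      (∀ i k : ℤ, g (i + k * n) = z ^ (m * k) • g i) ∧
      (∀ i, E (g i) (g (i + 1))) ∧
      (∀ i q, E (g i) q → q = g (i - 1) ∨ q = g (i + 1)) ∧
      ∀ p q, E p q → ∃ i, p = g i := by
  obtain ⟨g, n, m, hn, hm, h1, h2, h3, h4⟩ :=
    lon_line0 E z hsymm hE hfree hconn hdeg p0 q0 h0
  rcases lt_or_gt_of_ne hm with h | h
  · refine ⟨fun i => g (-i), n, -m, hn, by omega, ?_, ?_, ?_, ?_⟩
    · intro i k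
      show g (-(i + k * n)) = z ^ (-m * k) • g (-i)
      rw [show -(i + k * n) = -i + (-k) * n by ring, h1, show m * -k = -m * k by ring]
    · intro i
      show E (g (-i)) (g (-(i + 1)))
      have h5 := h2 (-(i + 1))
      rw [show -(i + 1) + 1 = -i by ring] at h5
      exact hsymm _ _ h5
    · intro i q hq
      show q = g (-(i - 1)) ∨ q = g (-(i + 1))
      rw [show -(i - 1) = -i + 1 by ring, show -(i + 1) = -i - 1 by ring]
      exact (h3 (-i) q hq).symm
    · intro p q hpq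
      obtain ⟨i, hi⟩ := h4 p q hpq
      exact ⟨-i, by show p = g (- -i); rw [neg_neg]; exact hi⟩
  · exact ⟨g, n, m, hn, h, h1, h2, h3, h4⟩

/-- on the axis `M` inverts `N` -/
theorem lon_axis {U : Type} {T : SimpleGraph U} {N M : U → U} (hN : IsField T N)
    (hM : IsField T M) (hN0 : ∀ u, N u ≠ u) {u : U} (hu : N u ≠ M u) :
    M (N u) = u ∧ N (N u) ≠ M (N u) := by
  have h1 : T.Adj u (N u) := (hN.1 u).resolve_left (hN0 u)
  have h2 : M (N u) = u := by
    by_contra h
    exact hu ((hM.2 u (N u) h1).2 h).symm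
  refine ⟨h2, ?_⟩
  rw [h2]
  exact (hN.2 u (N u) h1).1 rfl

theorem lon_axis_iter {U : Type} {T : SimpleGraph U} {N M : U → U} (hN : IsField T N)
    (hM : IsField T M) (hN0 : ∀ u, N u ≠ u) (k : ℕ) {u : U} (hu : N u ≠ M u) :
    M^[k] (N^[k] u) = u := by
  induction k generalizing u with
  | zero => rfl
  | succ k ih =>
    obtain ⟨h1, h2⟩ := lon_axis hN hM hN0 hu
    rw [Function.iterate_succ_apply' M, Function.iterate_succ_apply N, ih h2, h1]

/-- LON -/
theorem st_LON (hSL : ST_SL) : ST_LON := by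
  intro G _ X v hv hfr hex hdeg
  obtain ⟨hN0, hM0, ⟨z, κ, hstab, hz, hκ, hzN⟩, u, hu⟩ := X.P.hyp v hv
  have fN := X.P.fN v
  have fM := X.P.fM v
  obtain ⟨hMN, -⟩ := lon_axis fN fM hN0 hu
  have hax : Ax X.P v u (X.P.N v u) := ⟨rfl, hMN, hN0 u⟩
  obtain ⟨w, hw⟩ : ∃ w, w = X.P.N v u := ⟨_, rfl⟩
  rw [← hw] at hax hMN
  -- the stabilizer
  have hzv : z • v = v := by
    have : z ∈ stabilizer G v := by rw [hstab]; exact Subgroup.mem_zpowers z
    exact this
  have hzkv : ∀ k : ℤ, z ^ k • v = v := by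
    intro k
    have : z ^ k ∈ stabilizer G v := by
      rw [hstab]; exact Subgroup.zpow_mem_zpowers z k
    exact this
  have hzk1 : ∀ k : ℤ, k ≠ 0 → z ^ k ≠ 1 := by
    intro k hk h
    exact hz (isOfFinOrder_iff_zpow_eq_one.2 ⟨k, hk, h⟩)
  -- the translation towards the other end
  have hinv1 : ∀ a, X.P.N v a ≠ X.P.M v a →
      z⁻¹ • a = (X.P.M v)^[κ] a ∧ X.P.N v (z⁻¹ • a) ≠ X.P.M v (z⁻¹ • a) := by
    intro a ha
    have hzv' : z⁻¹ • v = v := inv_smul_eq_iff.2 hzv.symm
    have h1 : X.P.N v (z⁻¹ • a) ≠ X.P.M v (z⁻¹ • a) := by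
      have e1 := X.P.eN z⁻¹ v a
      have e2 := X.P.eM z⁻¹ v a
      rw [hzv'] at e1 e2
      rw [e1, e2]
      intro h
      exact ha (smul_left_cancel _ h)
    have h2 := hzN (z⁻¹ • a) h1
    rw [smul_inv_smul] at h2
    refine ⟨?_, h1⟩
    have h3 := lon_axis_iter fN fM hN0 κ h1
    rw [← h2] at h3
    exact h3.symm
  have hinv : ∀ (t : ℕ) a, X.P.N v a ≠ X.P.M v a →
      (z ^ t)⁻¹ • a = (X.P.M v)^[κ * t] a ∧
        X.P.N v ((z ^ t)⁻¹ • a) ≠ X.P.M v ((z ^ t)⁻¹ • a) := by
    intro t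
    induction t with
    | zero =>
      intro a ha
      rw [pow_zero, inv_one, one_smul, mul_zero]
      exact ⟨rfl, ha⟩
    | succ t ih =>
      intro a ha
      obtain ⟨h1, h2⟩ := hinv1 a ha
      obtain ⟨h3, h4⟩ := ih (z⁻¹ • a) h2
      have h5 : (z ^ (t + 1))⁻¹ • a = (z ^ t)⁻¹ • z⁻¹ • a := by
        rw [← mul_smul, pow_succ', mul_inv_rev]
      rw [h5]
      refine ⟨?_, h4⟩
      rw [h3, h1, ← Function.iterate_add_apply, mul_add, mul_one]
  -- the properties of S
  obtain ⟨-, -, -, hS3, hS4, hSg⟩ := hSL G X.D X.K X.P X.red X.nmax.1 X.nd v u w hv hax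
  have hout : ∀ y, X.K.adj v y → ∃ t₀ : ℕ, ∀ t ≥ t₀, z ^ t • y ∉ Sset X.P v u w := by
    intro y hy
    obtain ⟨k₀, hk₀⟩ := hS3 y hy (hfr y hy)
    refine ⟨k₀ + 1, fun t ht hcon => ?_⟩
    have hκt : k₀ + 1 ≤ κ * t := by nlinarith
    obtain ⟨k, hk⟩ : ∃ k, κ * t = k + 1 := ⟨κ * t - 1, by omega⟩
    have hwA : X.P.N v w ≠ X.P.M v w := by
      rw [hw]; exact (lon_axis fN fM hN0 hu).2
    have h1 := (hinv t u hu).1
    have h2 := (hinv t w hwA).1
    rw [hk] at h1 h2
    rw [Function.iterate_succ_apply, hMN] at h2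
    obtain ⟨-, -, -, -, -, hSg'⟩ := hSL G X.D X.K X.P X.red X.nmax.1 X.nd v
      ((z ^ t)⁻¹ • u) ((z ^ t)⁻¹ • w) hv (by
        have h3 := Ax_smul X.P ((z ^ t)⁻¹) hax
        have h4 : (z ^ t)⁻¹ • v = v := by
          have := hzkv (-(t : ℤ))
          rw [zpow_neg, zpow_natCast] at this
          exact this
        rw [h4] at h3
        exact h3)
    have h5 := hSg' (z ^ t) y
    rw [smul_inv_smul, smul_inv_smul] at h5
    have h6 : z ^ t • v = v := by
      have := hzkv (t : ℤ)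
      rw [zpow_natCast] at this
      exact this
    rw [h6] at h5
    have h7 := h5.1 hcon
    rw [h1, h2] at h7
    exact hk₀ k (by omega) h7
  -- the link
  have hsymm : ∀ p q, X.K.tri v p q → X.K.tri v q p := fun p q h =>
    X.K.tri_swap _ _ _ (X.K.tri_rot _ _ _ (X.K.tri_rot _ _ _ h))
  obtain ⟨hcon, htri⟩ := X.red.R2 v (Or.inr hv)
  obtain ⟨p0, hp0⟩ := X.K.nbr v
  obtain ⟨q0, hq0⟩ := htri p0 hp0
  obtain ⟨g, n, m, hn, hm, gper, gadj, gnbr, gsur⟩ := lon_line (fun p q => X.K.tri v p q) z hsymm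
    (by
      intro k p q h
      have h1 := X.K.smul_tri (z ^ k) _ _ _ h
      rw [hzkv k] at h1
      exact h1)
    (by
      intro k p q h hk hfix
      exact hzk1 k hk (hfr p (X.K.tri_adj _ _ _ h) (z ^ k) (hzkv k) hfix))
    (by
      intro p q p' q' h h'
      exact hcon p p' (X.K.tri_adj _ _ _ h) (X.K.tri_adj _ _ _ h'))
    (by
      intro p q h
      exact hdeg p (X.K.tri_adj _ _ _ h))
    p0 q0 hq0
  -- beyond every vertex there is a vertex outside S
  have hfar : ∀ i : ℤ, ∃ b, i < b ∧ g b ∉ Sset X.P v u w := by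
    intro i
    obtain ⟨t₀, ht₀⟩ := hout (g i) (X.K.tri_adj _ _ _ (gadj i))
    refine ⟨i + (t₀ + 1 : ℤ) * n, by nlinarith, ?_⟩
    rw [gper]
    have h1 : z ^ (m * (t₀ + 1 : ℤ)) = z ^ (m.toNat * (t₀ + 1)) := by
      rw [← zpow_natCast]
      congr 1
      rw [Nat.cast_mul, Int.toNat_of_nonneg hm.le, Nat.cast_succ]
    rw [h1]
    apply ht₀
    have : 1 ≤ m.toNat := by omega
    nlinarith
  -- S contains everything behind its elements
  have hback : ∀ i : ℤ, g i ∈ Sset X.P v u w → ∀ a < i, g a ∈ Sset X.P v u w := by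
    intro i hi a hai
    by_contra ha
    obtain ⟨b, hib, hb⟩ := hfar i
    apply hi.2.2
    apply ((Set.finite_Ioo a b).image g).subset
    intro y hy
    have h : y ∈ Sset X.P v u w ∧ ∃ l, a < l ∧ l < b ∧ y = g l := by
      have hy' : Relation.ReflTransGen
        (fun p q => X.K.tri v p q ∧ X.P.N p w = u ∧ X.P.N q w = u) (g i) y := hy
      clear hy
      induction hy' with
      | refl => exact ⟨hi, i, hai, hib, rfl⟩
      | @tail c d _ hcd ih =>
        obtain ⟨hc, l, hal, hlb, rfl⟩ := ih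
        have hd : d ∈ Sset X.P v u w := (hS4 _ _ hc hcd.1).2 hcd.2.2
        refine ⟨hd, ?_⟩
        rcases gnbr l d hcd.1 with h | h
        · refine ⟨l - 1, ?_, by omega, h⟩
          rcases lt_or_eq_of_le (by omega : a ≤ l - 1) with h1 | h1
          · exact h1
          · exfalso
            rw [h1] at ha
            rw [h] at hd
            exact ha hd
        · refine ⟨l + 1, by omega, ?_, h⟩
          rcases lt_or_eq_of_le (by omega : l + 1 ≤ b) with h1 | h1
          · exact h1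
          · exfalso
            rw [← h1] at hb
            rw [h] at hd
            exact hb hd
    obtain ⟨-, l, h1, h2, h3⟩ := h
    exact ⟨l, ⟨h1, h2⟩, h3.symm⟩
  -- exits
  have hexit : ∀ y, y ∈ Sset X.P v u w → (∃ z, X.K.tri v y z ∧ X.P.N z w ≠ u) →
      ∃ i, y = g i ∧ g (i + 1) ∉ Sset X.P v u w := by
    intro y hy ⟨x, hx, hxn⟩
    obtain ⟨i, hi⟩ := gsur y x hx
    have hxS : x ∉ Sset X.P v u w := fun h => hxn ((hS4 y x hy hx).1 h)
    rw [hi] at hy hx
    refine ⟨i, hi, ?_⟩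
    rcases gnbr i x hx with h | h
    · exfalso
      rw [h] at hxS
      exact hxS (hback i hy (i - 1) (by omega))
    · rw [← h]; exact hxS
  have huniq : ∀ y y', y ∈ Sset X.P v u w → (∃ z, X.K.tri v y z ∧ X.P.N z w ≠ u) →
      y' ∈ Sset X.P v u w → (∃ z, X.K.tri v y' z ∧ X.P.N z w ≠ u) → y = y' := by
    intro y y' hy he hy' he'
    obtain ⟨i, hi, hi'⟩ := hexit y hy he
    obtain ⟨j, hj, hj'⟩ := hexit y' hy' he'
    rcases lt_trichotomy i j with h | h | h
    · exfalso
      rcases lt_or_eq_of_le (by omega : i + 1 ≤ j) with h1 | h1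
      · rw [hj] at hy'
        exact hi' (hback j hy' (i + 1) h1)
      · rw [h1, ← hj] at hi'
        exact hi' hy'
    · rw [hi, hj, h]
    · exfalso
      rcases lt_or_eq_of_le (by omega : j + 1 ≤ i) with h1 | h1
      · rw [hi] at hy
        exact hj' (hback i hy (j + 1) h1)
      · rw [h1, ← hi] at hj'
        exact hj' hy
  -- the cluster of v is {v}
  have hcl : ∀ v', v' ∈ cl X.D X.K v → v' = v := by
    intro v' hv'
    have h : Relation.ReflTransGen (TF X.D X.K) v v' := hv'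
    rcases Relation.ReflTransGen.cases_head h with h | ⟨c, h1, -⟩
    · exact h.symm
    · exact absurd (hfr c h1.1) h1.2.2.2
  have hNw : X.P.N v w ≠ u := by
    have h1 : X.D.T.Adj u w := by
      rw [hw]
      exact (fN.1 u).resolve_left (hN0 u)
    exact (fN.2 u w h1).1 hw.symm
  have hsub : (X.exQ v u w).Subsingleton := by
    intro p hp p' hp'
    obtain ⟨h1, h2, h3⟩ := hp
    obtain ⟨h1', h2', h3'⟩ := hp'
    have e1 := hcl _ h1
    have e1' := hcl _ h1'
    rw [e1] at h2 h3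
    rw [e1'] at h2' h3'
    rcases h3 with h3 | h3
    · rcases h3' with h3' | h3'
      · refine Prod.ext (e1.trans e1'.symm) (huniq _ _ h3.2.1 h3.2.2 h3'.2.1 h3'.2.2)
      · exact absurd h3'.1 hNw
    · exact absurd h3.1 hNw
  have h2 := hex u w hax
  rcases hsub.eq_empty_or_singleton with h | ⟨p, h⟩
  · rw [h, Set.ncard_empty] at h2
    omega
  · rw [h, Set.ncard_singleton] at h2
    omega

end Pool.Agent.Helper93.HZ
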